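import Pool.Agent.N931.PN.Stm5

/-!
PN/W23: the spectral weight, with the exponent `2/3` (helper952 for the project PN of helper931).
-/

set_option autoImplicit false

namespace Pool.Agent.N952.PN.W23

open H974 H12S H389NS H984N H984P H342P Finset
open Pool.Agent.N116.EW
open H342L (cdist Curve)
open Pool.Agent.N931.PN

lemma geo {s : ℝ} (hs : 1 < s) (m : ℕ) : ∑ i ∈ range m, s ^ i ≤ s ^ m / (s - 1) := by
  have h1 : 0 < s - 1 := by linarith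
  rw [geom_sum_eq hs.ne']
  exact div_le_div_of_nonneg_right (by linarith) h1.le

lemma sum1 {s t : ℝ} (hs : 1 < s) (ht : 0 < t) (hst : 1 < s * t) (N : ℕ) :
    ∑ j ∈ range N, ∑ i ∈ range (j + 1), s ^ i * t ^ j ≤
      s / (s - 1) / (s * t - 1) * (s * t) ^ N := by
  have h1 : 0 < s - 1 := by linarith
  have h2 : 0 < s * t - 1 := by linarith
  calc ∑ j ∈ range N, ∑ i ∈ range (j + 1), s ^ i * t ^ j
      ≤ ∑ j ∈ range N, s / (s - 1) * (s * t) ^ j := by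
        refine sum_le_sum fun j _ => ?_
        rw [← sum_mul]
        calc (∑ i ∈ range (j + 1), s ^ i) * t ^ j ≤ (s ^ (j + 1) / (s - 1)) * t ^ j :=
              mul_le_mul_of_nonneg_right (geo hs _) (by positivity)
          _ = s / (s - 1) * (s * t) ^ j := by rw [mul_pow, pow_succ]; ring
    _ = s / (s - 1) * ∑ j ∈ range N, (s * t) ^ j := by rw [mul_sum]
    _ ≤ s / (s - 1) * ((s * t) ^ N / (s * t - 1)) :=
        mul_le_mul_of_nonneg_left (geo hst _) (by positivity)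
    _ = s / (s - 1) / (s * t - 1) * (s * t) ^ N := by ring

lemma cover {α : Type*} [DecidableEq α] (I : Finset α) (W : α → ℝ) (N : ℕ)
    (Img : ℕ → ℕ → Finset α) (V : ℕ → ℕ → ℝ) (hV : ∀ i j, 0 ≤ V i j)
    (h : ∀ c ∈ I, ∃ j < N, ∃ i ≤ j, c ∈ Img i j ∧ W c ≤ V i j) :
    ∑ c ∈ I, W c ≤ ∑ j ∈ range N, ∑ i ∈ range (j + 1), ((Img i j).card : ℝ) * V i j := by
  have hn : ∀ (c : α) (i j : ℕ), 0 ≤ (if c ∈ Img i j then V i j else 0) := by
    intro c i j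
    split_ifs
    · exact hV i j
    · exact le_rfl
  calc ∑ c ∈ I, W c
      ≤ ∑ c ∈ I, ∑ j ∈ range N, ∑ i ∈ range (j + 1), (if c ∈ Img i j then V i j else 0) := by
        refine sum_le_sum fun c hc => ?_
        obtain ⟨j, hj, i, hi, hci, hW⟩ := h c hc
        refine hW.trans ?_
        have h1 : V i j = if c ∈ Img i j then V i j else 0 := by rw [if_pos hci]
        have h2 : (if c ∈ Img i j then V i j else 0) ≤
            ∑ i ∈ range (j + 1), (if c ∈ Img i j then V i j else 0) :=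
          single_le_sum (f := fun i => (if c ∈ Img i j then V i j else 0))
            (fun i _ => hn c i j) (mem_range.2 (by omega))
        have h3 : ∑ i ∈ range (j + 1), (if c ∈ Img i j then V i j else 0) ≤
            ∑ j ∈ range N, ∑ i ∈ range (j + 1), (if c ∈ Img i j then V i j else 0) :=
          single_le_sum (f := fun j => ∑ i ∈ range (j + 1), (if c ∈ Img i j then V i j else 0))
            (fun j _ => sum_nonneg fun i _ => hn c i j) (mem_range.2 hj)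
        exact (h1.le.trans h2).trans h3
    _ = ∑ j ∈ range N, ∑ i ∈ range (j + 1), ∑ c ∈ I, (if c ∈ Img i j then V i j else 0) := by
        rw [sum_comm]
        refine sum_congr rfl fun j _ => ?_
        rw [sum_comm]
    _ ≤ ∑ j ∈ range N, ∑ i ∈ range (j + 1), ((Img i j).card : ℝ) * V i j := by
        refine sum_le_sum fun j _ => sum_le_sum fun i _ => ?_
        rw [← sum_filter, sum_const, nsmul_eq_mul]
        refine mul_le_mul_of_nonneg_right ?_ (hV i j)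
        exact_mod_cast card_le_card fun c hc => (mem_filter.1 hc).2

/-- powers of two -/
lemma two_rpow (a : ℝ) (i : ℕ) : ((2 : ℝ) ^ i) ^ a = ((2 : ℝ) ^ a) ^ i := by
  rw [← Real.rpow_natCast, ← Real.rpow_mul (by norm_num), mul_comm,
    Real.rpow_mul (by norm_num), Real.rpow_natCast]

/-- the double sum -/
lemma ana (C1 C2 M : ℝ) (hC1 : 0 < C1) (hC2 : 0 < C2) (hM : 0 < M) : ∃ A : ℝ, 0 < A ∧
    ∀ (δ L : ℝ) (r N : ℕ) (n : ℕ → ℕ → ℝ), 0 < δ → 1 ≤ r → 0 ≤ L → (2 : ℝ) ^ N ≤ M / (δ * r) →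
    (∀ i j, i ≤ j → n i j ≤ C2 * ((2 : ℝ) ^ (i + 1) * 2 ^ (j + 1))) →
    ∑ j ∈ range N, ∑ i ∈ range (j + 1), n i j * (C1 *
      (δ ^ 2 * (1 + L) ^ 2 * (r : ℝ) ^ (5 / 2 : ℝ) * ((2 : ℝ) ^ i * r) ^ (-(1 / 2) : ℝ) +
        δ ^ (2 / 3 : ℝ) * (r : ℝ) ^ (5 / 2 : ℝ) * ((2 : ℝ) ^ i * r) ^ (-(2 / 3) : ℝ) *
          ((2 : ℝ) ^ j * r) ^ (-(7 / 6) : ℝ))) ≤ A * ((1 + L) ^ 2 * (δ * r) ^ (1 / 2 : ℝ)) := by
  set s : ℝ := (2 : ℝ) ^ (1 / 2 : ℝ) with hs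
  set s' : ℝ := (2 : ℝ) ^ (1 / 3 : ℝ) with hs'
  set t' : ℝ := (2 : ℝ) ^ (-(1 / 6) : ℝ) with ht'
  have s1 : 1 < s := Real.one_lt_rpow (by norm_num) (by norm_num)
  have s1' : 1 < s' := Real.one_lt_rpow (by norm_num) (by norm_num)
  have t0 : 0 < t' := by positivity
  have e1 : s * 2 = (2 : ℝ) ^ (3 / 2 : ℝ) := by
    rw [hs]
    calc (2 : ℝ) ^ (1 / 2 : ℝ) * 2 = (2 : ℝ) ^ (1 / 2 : ℝ) * (2 : ℝ) ^ (1 : ℝ) := by
          rw [Real.rpow_one]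
      _ = (2 : ℝ) ^ (3 / 2 : ℝ) := by
          rw [← Real.rpow_add (by norm_num)]
          norm_num
  have e2 : s' * t' = (2 : ℝ) ^ (1 / 6 : ℝ) := by
    rw [hs', ht', ← Real.rpow_add (by norm_num)]
    norm_num
  have st1 : 1 < s * 2 := by linarith
  have st1' : 1 < s' * t' := by
    rw [e2]
    exact Real.one_lt_rpow (by norm_num) (by norm_num)
  set K1 : ℝ := s / (s - 1) / (s * 2 - 1) with hK1
  set K2 : ℝ := s' / (s' - 1) / (s' * t' - 1) with hK2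
  have K1p : 0 < K1 := by
    have a1 : 0 < s - 1 := by linarith
    have a2 : 0 < s * 2 - 1 := by linarith
    positivity
  have K2p : 0 < K2 := by
    have a1 : 0 < s' - 1 := by linarith
    have a2 : 0 < s' * t' - 1 := by linarith
    have a3 : 0 < s' := by linarith
    positivity
  refine ⟨4 * C1 * C2 * (K1 * M ^ (3 / 2 : ℝ) + K2 * M ^ (1 / 6 : ℝ)), by positivity, ?_⟩
  intro δ L r N n hδ hr hL hN hn
  have hr0 : (0 : ℝ) < r := by exact_mod_cast hr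
  set q : ℝ := δ * r with hq
  have hq0 : 0 < q := by positivity
  -- one term
  have hterm : ∀ j ∈ range N, ∀ i ∈ range (j + 1), n i j * (C1 *
      (δ ^ 2 * (1 + L) ^ 2 * (r : ℝ) ^ (5 / 2 : ℝ) * ((2 : ℝ) ^ i * r) ^ (-(1 / 2) : ℝ) +
        δ ^ (2 / 3 : ℝ) * (r : ℝ) ^ (5 / 2 : ℝ) * ((2 : ℝ) ^ i * r) ^ (-(2 / 3) : ℝ) *
          ((2 : ℝ) ^ j * r) ^ (-(7 / 6) : ℝ))) ≤
      4 * C1 * C2 * ((1 + L) ^ 2 * q ^ 2) * (s ^ i * 2 ^ j) +
        4 * C1 * C2 * q ^ (2 / 3 : ℝ) * (s' ^ i * t' ^ j) := by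
    intro j _ i hi
    have hij : i ≤ j := by
      have := mem_range.1 hi
      omega
    have p2i : (0 : ℝ) < 2 ^ i := by positivity
    have p2j : (0 : ℝ) < 2 ^ j := by positivity
    refine (mul_le_mul_of_nonneg_right (hn i j hij) (by positivity)).trans (le_of_eq ?_)
    have g1 : (r : ℝ) ^ (5 / 2 : ℝ) * ((2 : ℝ) ^ i * r) ^ (-(1 / 2) : ℝ) * 2 ^ i =
        (r : ℝ) ^ 2 * s ^ i := by
      rw [Real.mul_rpow p2i.le hr0.le]
      have a1 : (r : ℝ) ^ (5 / 2 : ℝ) * (r : ℝ) ^ (-(1 / 2) : ℝ) = (r : ℝ) ^ 2 := by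
        rw [← Real.rpow_add hr0, ← Real.rpow_natCast]
        norm_num
      have a2 : ((2 : ℝ) ^ i) ^ (-(1 / 2) : ℝ) * 2 ^ i = s ^ i := by
        rw [hs, ← two_rpow]
        nth_rewrite 2 [← Real.rpow_one ((2 : ℝ) ^ i)]
        rw [← Real.rpow_add p2i]
        norm_num
      calc (r : ℝ) ^ (5 / 2 : ℝ) * (((2 : ℝ) ^ i) ^ (-(1 / 2) : ℝ) * (r : ℝ) ^ (-(1 / 2) : ℝ)) * 2 ^ i
          = ((r : ℝ) ^ (5 / 2 : ℝ) * (r : ℝ) ^ (-(1 / 2) : ℝ)) *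
            (((2 : ℝ) ^ i) ^ (-(1 / 2) : ℝ) * 2 ^ i) := by ring
        _ = (r : ℝ) ^ 2 * s ^ i := by rw [a1, a2]
    have g2 : (r : ℝ) ^ (5 / 2 : ℝ) * ((2 : ℝ) ^ i * r) ^ (-(2 / 3) : ℝ) *
        ((2 : ℝ) ^ j * r) ^ (-(7 / 6) : ℝ) * (2 ^ i * 2 ^ j) =
        (r : ℝ) ^ (2 / 3 : ℝ) * (s' ^ i * t' ^ j) := by
      rw [Real.mul_rpow p2i.le hr0.le, Real.mul_rpow p2j.le hr0.le]
      have a1 : (r : ℝ) ^ (5 / 2 : ℝ) * (r : ℝ) ^ (-(2 / 3) : ℝ) * (r : ℝ) ^ (-(7 / 6) : ℝ) =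
          (r : ℝ) ^ (2 / 3 : ℝ) := by
        rw [← Real.rpow_add hr0, ← Real.rpow_add hr0]
        norm_num
      have a2 : ((2 : ℝ) ^ i) ^ (-(2 / 3) : ℝ) * 2 ^ i = s' ^ i := by
        rw [hs', ← two_rpow]
        nth_rewrite 2 [← Real.rpow_one ((2 : ℝ) ^ i)]
        rw [← Real.rpow_add p2i]
        norm_num
      have a3 : ((2 : ℝ) ^ j) ^ (-(7 / 6) : ℝ) * 2 ^ j = t' ^ j := by
        rw [ht', ← two_rpow]
        nth_rewrite 2 [← Real.rpow_one ((2 : ℝ) ^ j)]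
        rw [← Real.rpow_add p2j]
        norm_num
      calc (r : ℝ) ^ (5 / 2 : ℝ) * (((2 : ℝ) ^ i) ^ (-(2 / 3) : ℝ) * (r : ℝ) ^ (-(2 / 3) : ℝ)) *
            (((2 : ℝ) ^ j) ^ (-(7 / 6) : ℝ) * (r : ℝ) ^ (-(7 / 6) : ℝ)) * (2 ^ i * 2 ^ j)
          = ((r : ℝ) ^ (5 / 2 : ℝ) * (r : ℝ) ^ (-(2 / 3) : ℝ) * (r : ℝ) ^ (-(7 / 6) : ℝ)) *
            ((((2 : ℝ) ^ i) ^ (-(2 / 3) : ℝ) * 2 ^ i) * (((2 : ℝ) ^ j) ^ (-(7 / 6) : ℝ) * 2 ^ j)) := by
            ring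
        _ = (r : ℝ) ^ (2 / 3 : ℝ) * (s' ^ i * t' ^ j) := by rw [a1, a2, a3]
    have g3 : q ^ 2 = δ ^ 2 * (r : ℝ) ^ 2 := by rw [hq]; ring
    have g4 : q ^ (2 / 3 : ℝ) = δ ^ (2 / 3 : ℝ) * (r : ℝ) ^ (2 / 3 : ℝ) :=
      Real.mul_rpow hδ.le hr0.le
    calc C2 * ((2 : ℝ) ^ (i + 1) * 2 ^ (j + 1)) * (C1 *
      (δ ^ 2 * (1 + L) ^ 2 * (r : ℝ) ^ (5 / 2 : ℝ) * ((2 : ℝ) ^ i * r) ^ (-(1 / 2) : ℝ) +
        δ ^ (2 / 3 : ℝ) * (r : ℝ) ^ (5 / 2 : ℝ) * ((2 : ℝ) ^ i * r) ^ (-(2 / 3) : ℝ) *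
          ((2 : ℝ) ^ j * r) ^ (-(7 / 6) : ℝ)))
        = 4 * C1 * C2 * ((1 + L) ^ 2 * δ ^ 2) *
            ((r : ℝ) ^ (5 / 2 : ℝ) * ((2 : ℝ) ^ i * r) ^ (-(1 / 2) : ℝ) * 2 ^ i) * 2 ^ j +
          4 * C1 * C2 * δ ^ (2 / 3 : ℝ) *
            ((r : ℝ) ^ (5 / 2 : ℝ) * ((2 : ℝ) ^ i * r) ^ (-(2 / 3) : ℝ) *
              ((2 : ℝ) ^ j * r) ^ (-(7 / 6) : ℝ) * (2 ^ i * 2 ^ j)) := by
          rw [pow_succ, pow_succ]; ring
      _ = 4 * C1 * C2 * ((1 + L) ^ 2 * q ^ 2) * (s ^ i * 2 ^ j) +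
        4 * C1 * C2 * q ^ (2 / 3 : ℝ) * (s' ^ i * t' ^ j) := by
          rw [g1, g2, g3, g4]; ring
  have hsum := sum_le_sum fun j hj => sum_le_sum (hterm j hj)
  refine hsum.trans ?_
  simp only [sum_add_distrib, ← mul_sum]
  have f1 := sum1 s1 (by norm_num : (0 : ℝ) < 2) st1 N
  have f2 := sum1 s1' t0 st1' N
  have f3 : (s * 2) ^ N ≤ M ^ (3 / 2 : ℝ) * q ^ (-(3 / 2) : ℝ) := by
    rw [e1, ← two_rpow, Real.rpow_neg hq0.le, ← div_eq_mul_inv, ← Real.div_rpow hM.le hq0.le]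
    exact Real.rpow_le_rpow (by positivity) hN (by norm_num)
  have f4 : (s' * t') ^ N ≤ M ^ (1 / 6 : ℝ) * q ^ (-(1 / 6) : ℝ) := by
    rw [e2, ← two_rpow, Real.rpow_neg hq0.le, ← div_eq_mul_inv, ← Real.div_rpow hM.le hq0.le]
    exact Real.rpow_le_rpow (by positivity) hN (by norm_num)
  have f5 : q ^ 2 * q ^ (-(3 / 2) : ℝ) = q ^ (1 / 2 : ℝ) := by
    rw [← Real.rpow_natCast, ← Real.rpow_add hq0]
    norm_num
  have f6 : q ^ (2 / 3 : ℝ) * q ^ (-(1 / 6) : ℝ) = q ^ (1 / 2 : ℝ) := by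
    rw [← Real.rpow_add hq0]
    norm_num
  have hL1 : (1 : ℝ) ≤ (1 + L) ^ 2 := by nlinarith
  calc 4 * C1 * C2 * ((1 + L) ^ 2 * q ^ 2) * ∑ j ∈ range N, ∑ i ∈ range (j + 1), s ^ i * 2 ^ j +
      4 * C1 * C2 * q ^ (2 / 3 : ℝ) * ∑ j ∈ range N, ∑ i ∈ range (j + 1), s' ^ i * t' ^ j
      ≤ 4 * C1 * C2 * ((1 + L) ^ 2 * q ^ 2) * (K1 * (M ^ (3 / 2 : ℝ) * q ^ (-(3 / 2) : ℝ))) +
      4 * C1 * C2 * q ^ (2 / 3 : ℝ) * (K2 * (M ^ (1 / 6 : ℝ) * q ^ (-(1 / 6) : ℝ))) := by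
        refine add_le_add (mul_le_mul_of_nonneg_left ?_ (by positivity))
          (mul_le_mul_of_nonneg_left ?_ (by positivity))
        · exact f1.trans (mul_le_mul_of_nonneg_left f3 K1p.le)
        · exact f2.trans (mul_le_mul_of_nonneg_left f4 K2p.le)
    _ = 4 * C1 * C2 * (K1 * M ^ (3 / 2 : ℝ) * ((1 + L) ^ 2 * (q ^ 2 * q ^ (-(3 / 2) : ℝ))) +
        K2 * M ^ (1 / 6 : ℝ) * (1 * (q ^ (2 / 3 : ℝ) * q ^ (-(1 / 6) : ℝ)))) := by ring
    _ = 4 * C1 * C2 * (K1 * M ^ (3 / 2 : ℝ) * ((1 + L) ^ 2 * q ^ (1 / 2 : ℝ)) +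
        K2 * M ^ (1 / 6 : ℝ) * (1 * q ^ (1 / 2 : ℝ))) := by rw [f5, f6]
    _ ≤ 4 * C1 * C2 * (K1 * M ^ (3 / 2 : ℝ) * ((1 + L) ^ 2 * q ^ (1 / 2 : ℝ)) +
        K2 * M ^ (1 / 6 : ℝ) * ((1 + L) ^ 2 * q ^ (1 / 2 : ℝ))) := by gcongr
    _ = 4 * C1 * C2 * (K1 * M ^ (3 / 2 : ℝ) + K2 * M ^ (1 / 6 : ℝ)) *
        ((1 + L) ^ 2 * q ^ (1 / 2 : ℝ)) := by ring

/-- the distance to the boundary is at most the distance to the corners and ends -/
lemma bd_le_qd (D : Dm) (z : Vtx) : D.bd z ≤ qd D z := by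
  unfold Dm.bd qd sd
  simp only [le_min_iff, le_max_iff]
  have a1 := le_abs_self (z.1 - D.l)
  have a2 := neg_le_abs (z.1 - D.r)
  have a3 := le_abs_self (z.2 - 0)
  have a4 := neg_le_abs (z.2 - D.h)
  refine ⟨⟨⟨Or.inl ?_, Or.inl ?_⟩, ⟨Or.inl ?_, Or.inl ?_⟩⟩, ⟨Or.inr ?_, Or.inr ?_⟩⟩
  all_goals simp only [min_le_iff]
  · left; left; exact a1
  · left; right; linarith
  · left; left; exact a1
  · left; right; linarith
  · right; right; linarith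
  · right; left; linarith

/-- the rectangle is small -/
lemma qd_le {κ n : ℝ} {D : Dm} (h : D.Shape κ n) {z : Vtx} (hz : inR D.l D.r 0 D.h z) :
    (qd D z : ℝ) ≤ n := by
  have h1 : qd D z ≤ sd z (D.l, 0) := by
    unfold qd
    exact (min_le_left _ _).trans ((min_le_left _ _).trans (min_le_left _ _))
  obtain ⟨⟨b1, b2⟩, b3, b4⟩ := hz
  have h2 : sd z (D.l, 0) ≤ max (D.r - D.l) D.h := by
    unfold sd
    refine max_le_max ?_ ?_
    · simp only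
      rw [abs_of_nonneg (by omega)]
      omega
    · simp only
      rw [abs_of_nonneg (by omega)]
      omega
  have h3 : (qd D z : ℝ) ≤ ((max (D.r - D.l) D.h : ℤ) : ℝ) := by exact_mod_cast h1.trans h2
  refine h3.trans ?_
  rw [Int.cast_max]
  exact max_le h.w_le h.h_le

/-- the spectral weight is at most one -/
lemma WT_le_one (R : Rect) (δ : ℝ) {f : Curve → ℝ} (hLp : Lp f) {x : ℝ} (hx0 : 0 ≤ x)
    (hx1 : x ≤ 1) : WT (R.dm δ).edges (hf R δ f) x ≤ 1 := by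
  classical
  set D := R.dm δ with hD
  set h := hf R δ f with hh
  have hρ : ∀ e ∈ D.edges, 0 ≤ (fun _ : Edg => x) e ∧ (fun _ : Edg => x) e ≤ 1 :=
    fun e _ => ⟨hx0, hx1⟩
  have hterm : ∀ T : Finset Edg, 0 ≤ (wal D.edges h T) ^ 2 * x ^ T.card :=
    fun T => mul_nonneg (sq_nonneg _) (pow_nonneg hx0 _)
  have e1 : E2 (fun _ : Edg => x) D.edges (fun F F' => h F * h F') =
      ∑ T ∈ D.edges.powerset, (wal D.edges h T) ^ 2 * x ^ T.card := by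
    rw [E2_wal]
    refine Finset.sum_congr rfl fun T _ => ?_
    rw [Finset.prod_const]; ring
  unfold WT
  calc ∑ T ∈ D.edges.powerset.filter (fun T => T.Nonempty),
      (wal D.edges h T) ^ 2 * x ^ T.card
      ≤ ∑ T ∈ D.edges.powerset, (wal D.edges h T) ^ 2 * x ^ T.card :=
        Finset.sum_le_sum_of_subset_of_nonneg (Finset.filter_subset _ _) fun T _ _ => hterm T
    _ = E2 (fun _ : Edg => x) D.edges (fun F F' => h F * h F') := e1.symm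
    _ ≤ E2 (fun _ : Edg => x) D.edges (fun _ _ => (1 : ℝ)) := by
        refine E2_mono hρ fun F F' _ _ => ?_
        have a1 : |h F| ≤ 1 := hLp.2 _
        have a2 : |h F'| ≤ 1 := hLp.2 _
        calc h F * h F' ≤ |h F * h F'| := le_abs_self _
          _ = |h F| * |h F'| := abs_mul _ _
          _ ≤ 1 := mul_le_one₀ a1 (abs_nonneg _) a2
    _ = Ex hp D.edges (fun _ => (1 : ℝ)) := A6_left (fun _ : Edg => x) D.edges (fun _ => (1 : ℝ))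
    _ = 1 := Ex_const _ _ _

/-- the union of the cells -/
lemma WT_union (D : Dm) (h : Finset Edg → ℝ) {x : ℝ} (hx0 : 0 ≤ x) (r : ℕ) :
    WT D.edges h x ≤ ∑ i ∈ D.edges.image (N931.PN.cell r),
      ∑ T ∈ D.edges.powerset.filter
        (fun T => ¬ Disjoint T (D.edges.filter (fun e => N931.PN.cell r e = i))),
        (wal D.edges h T) ^ 2 * x ^ T.card := by
  classical
  have hterm : ∀ T : Finset Edg, 0 ≤ (wal D.edges h T) ^ 2 * x ^ T.card :=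
    fun T => mul_nonneg (sq_nonneg _) (pow_nonneg hx0 _)
  unfold WT
  simp only [Finset.sum_filter]
  rw [Finset.sum_comm]
  refine Finset.sum_le_sum fun T hT0 => ?_
  split_ifs with hT
  · obtain ⟨e, heT⟩ := hT
    have heN : e ∈ D.edges := Finset.mem_powerset.1 hT0 heT
    have h1 : ∀ i ∈ D.edges.image (N931.PN.cell r),
        (0 : ℝ) ≤ if ¬ Disjoint T (D.edges.filter (fun e => N931.PN.cell r e = i))
          then (wal D.edges h T) ^ 2 * x ^ T.card else 0 := by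
      intro i _
      split_ifs
      · exact le_rfl
      · exact hterm T
    refine le_trans ?_ (Finset.single_le_sum h1 (Finset.mem_image_of_mem (N931.PN.cell r) heN))
    rw [if_pos]
    rw [Finset.not_disjoint_iff]
    exact ⟨e, heT, Finset.mem_filter.2 ⟨heN, rfl⟩⟩
  · exact Finset.sum_nonneg fun i _ => by
      split_ifs
      · exact le_rfl
      · exact hterm T

/-- the dyadic scale of a distance -/
lemma scale {r d : ℕ} (hr : 1 ≤ r) (hd : r ≤ d) :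
    2 ^ (Nat.log 2 (d / r)) * r ≤ d ∧ d < 2 ^ (Nat.log 2 (d / r) + 1) * r := by
  have h0 : d / r ≠ 0 := (Nat.div_pos hd hr).ne'
  constructor
  · exact (Nat.mul_le_mul_right _ (Nat.pow_log_le_self 2 h0)).trans (Nat.div_mul_le_self _ _)
  · have h1 : d / r < 2 ^ (Nat.log 2 (d / r) + 1) := Nat.lt_pow_succ_log_self (by norm_num) _
    exact (Nat.div_lt_iff_lt_mul hr).1 h1

theorem main (hBW2 : S_BW2) (hBK : S_BK) (hCNT : S_CNT) (hCNT2 : S_CNT2) : S_W23 := by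
  classical
  intro R
  obtain ⟨κ, S0, δ0, hκ, hS0, hδ0, hδ01, hshape⟩ := R.shape
  obtain ⟨C1, δ1, hC1, hδ1, hBK⟩ := hBK R
  obtain ⟨hcell, -⟩ := hCNT
  obtain ⟨C2, hC2, hcnt⟩ := hCNT2
  obtain ⟨A, hA, hana⟩ := ana C1 C2 (2 * (S0 + 1)) hC1 hC2 (by positivity)
  refine ⟨max 2 (A * 4), min δ0 δ1, lt_of_lt_of_le (by norm_num) (le_max_left _ _),
    lt_min hδ0 hδ1, ?_⟩
  intro δ ε hδ hδle hε hε1 hΛ f hLp
  have hsh := hshape δ hδ (hδle.trans (min_le_left _ _))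
  have hOk : (R.dm δ).Ok := hsh.ok
  have hδ1' : δ ≤ δ1 := hδle.trans (min_le_right _ _)
  set Λ : ℝ := ε * δ ^ (-(3 / 4) : ℝ) with hΛd
  have hΛ0 : 0 < Λ := by linarith
  have hlog : 0 ≤ Real.log Λ := Real.log_nonneg hΛ
  have hx0 : 0 ≤ 1 - ε := by linarith
  have hx1 : 1 - ε < 1 := by linarith
  -- the size of the blocks
  obtain ⟨r, hrdef⟩ : ∃ r : ℕ, r = ⌈ε ^ (-(4 / 3) : ℝ)⌉₊ := ⟨_, rfl⟩
  have hε43 : 1 ≤ ε ^ (-(4 / 3) : ℝ) :=
    Real.one_le_rpow_of_pos_of_le_one_of_nonpos hε hε1 (by norm_num)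
  have hr_ge : ε ^ (-(4 / 3) : ℝ) ≤ r := by rw [hrdef]; exact Nat.le_ceil _
  have hr_lt : (r : ℝ) < ε ^ (-(4 / 3) : ℝ) + 1 := by
    rw [hrdef]
    exact Nat.ceil_lt_add_one (by positivity)
  have hr : 1 ≤ r := by exact_mod_cast hε43.trans hr_ge
  have hr0 : (0 : ℝ) < r := by exact_mod_cast hr
  have hr_le : (r : ℝ) ≤ 2 * ε ^ (-(4 / 3) : ℝ) := by linarith
  have hΛ43 : Λ ^ (-(4 / 3) : ℝ) = δ * ε ^ (-(4 / 3) : ℝ) := by
    have a1 : (δ ^ (-(3 / 4) : ℝ)) ^ (-(4 / 3) : ℝ) = δ := by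
      rw [← Real.rpow_mul hδ.le]
      norm_num
    rw [hΛd, Real.mul_rpow hε.le (by positivity), a1, mul_comm]
  have hq_le : δ * r ≤ 2 * Λ ^ (-(4 / 3) : ℝ) := by
    rw [hΛ43]
    calc δ * r ≤ δ * (2 * ε ^ (-(4 / 3) : ℝ)) := mul_le_mul_of_nonneg_left hr_le hδ.le
      _ = 2 * (δ * ε ^ (-(4 / 3) : ℝ)) := by ring
  have hq_ge : Λ ^ (-(4 / 3) : ℝ) ≤ δ * r := by
    rw [hΛ43]
    exact mul_le_mul_of_nonneg_left hr_ge hδ.le
  have hq0 : 0 < δ * r := by positivity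
  have hxr : 1 ≤ (1 - (1 - ε)) * (r : ℝ) ^ (3 / 4 : ℝ) := by
    have h1 : ε⁻¹ ≤ (r : ℝ) ^ (3 / 4 : ℝ) := by
      calc ε⁻¹ = (ε ^ (-(4 / 3) : ℝ)) ^ (3 / 4 : ℝ) := by
            rw [← Real.rpow_mul hε.le, ← Real.rpow_neg_one]
            norm_num
        _ ≤ (r : ℝ) ^ (3 / 4 : ℝ) := Real.rpow_le_rpow (by positivity) hr_ge (by norm_num)
    rw [sub_sub_cancel]
    calc (1 : ℝ) = ε * ε⁻¹ := (mul_inv_cancel₀ hε.ne').symm
      _ ≤ ε * (r : ℝ) ^ (3 / 4 : ℝ) := mul_le_mul_of_nonneg_left h1 hε.le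
  have hhalf : (2 * Λ ^ (-(4 / 3) : ℝ)) ^ (1 / 2 : ℝ) ≤ 2 * Λ ^ (-(2 / 3) : ℝ) := by
    have a1 : (2 : ℝ) ^ (1 / 2 : ℝ) ≤ 2 := by
      calc (2 : ℝ) ^ (1 / 2 : ℝ) ≤ 2 ^ (1 : ℝ) :=
            Real.rpow_le_rpow_of_exponent_le (by norm_num) (by norm_num)
        _ = 2 := Real.rpow_one 2
    have a2 : (Λ ^ (-(4 / 3) : ℝ)) ^ (1 / 2 : ℝ) = Λ ^ (-(2 / 3) : ℝ) := by
      rw [← Real.rpow_mul hΛ0.le]
      norm_num
    rw [Real.mul_rpow (by norm_num) (by positivity), a2]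
    exact mul_le_mul_of_nonneg_right a1 (by positivity)
  have hΛ23 : 0 < Λ ^ (-(2 / 3) : ℝ) := by positivity
  have hlg1 : (1 : ℝ) ≤ (1 + Real.log Λ) ^ 2 := by nlinarith
  by_cases hbig : 1 < δ * r
  · have h1 : 1 ≤ (2 * Λ ^ (-(4 / 3) : ℝ)) ^ (1 / 2 : ℝ) :=
      Real.one_le_rpow (by linarith) (by norm_num)
    calc WT (R.dm δ).edges (hf R δ f) (1 - ε) ≤ 1 := WT_le_one R δ hLp hx0 hx1.le
      _ ≤ 2 * Λ ^ (-(2 / 3) : ℝ) := h1.trans hhalf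
      _ ≤ 2 * (Λ ^ (-(2 / 3) : ℝ) * (1 + Real.log Λ) ^ 2) :=
          mul_le_mul_of_nonneg_left (le_mul_of_one_le_right hΛ23.le hlg1) (by norm_num)
      _ ≤ max 2 (A * 4) * (Λ ^ (-(2 / 3) : ℝ) * (1 + Real.log Λ) ^ 2) :=
          mul_le_mul_of_nonneg_right (le_max_left _ _) (by positivity)
  push Not at hbig
  set D := R.dm δ with hD
  set h := hf R δ f with hh
  set L : ℝ := Real.log (1 / (δ * r)) with hLd
  have hL0 : 0 ≤ L := Real.log_nonneg (by rw [le_div_iff₀ hq0]; linarith)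
  -- the number of scales
  obtain ⟨Q, hQ⟩ : ∃ Q : ℕ, Q = ⌊(S0 + 1) / (δ * r)⌋₊ := ⟨_, rfl⟩
  have hbase : 1 ≤ (S0 + 1) / (δ * r) := by
    rw [le_div_iff₀ hq0]
    linarith
  have hQ1 : Q ≠ 0 := by
    have : 1 ≤ Q := by
      rw [hQ]
      exact Nat.le_floor (by exact_mod_cast hbase)
    omega
  have hQle : (Q : ℝ) ≤ (S0 + 1) / (δ * r) := by
    rw [hQ]
    exact Nat.floor_le (by positivity)
  have hN : (2 : ℝ) ^ (Nat.log 2 Q + 1) ≤ 2 * (S0 + 1) / (δ * r) := by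
    have h1 : ((2 ^ Nat.log 2 Q : ℕ) : ℝ) ≤ Q := by exact_mod_cast Nat.pow_log_le_self 2 hQ1
    push_cast at h1
    rw [pow_succ]
    calc (2 : ℝ) ^ Nat.log 2 Q * 2 ≤ (S0 + 1) / (δ * r) * 2 := by linarith
      _ = 2 * (S0 + 1) / (δ * r) := by ring
  -- the blocks
  set W : ℤ × ℤ → ℝ := fun i => ∑ T ∈ D.edges.powerset.filter
        (fun T => ¬ Disjoint T (D.edges.filter (fun e => N931.PN.cell r e = i))),
        (wal D.edges h T) ^ 2 * (1 - ε) ^ T.card with hW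
  set Img : ℕ → ℕ → Finset (ℤ × ℤ) := fun i j =>
    (D.edges.filter (fun e => D.bd (src e) ≤ ((2 ^ (i + 1) * r : ℕ) : ℤ) ∧
      qd D (src e) ≤ ((2 ^ (j + 1) * r : ℕ) : ℤ))).image (N931.PN.cell r) with hImg
  set V : ℕ → ℕ → ℝ := fun i j => C1 *
      (δ ^ 2 * (1 + L) ^ 2 * (r : ℝ) ^ (5 / 2 : ℝ) * ((2 : ℝ) ^ i * r) ^ (-(1 / 2) : ℝ) +
        δ ^ (2 / 3 : ℝ) * (r : ℝ) ^ (5 / 2 : ℝ) * ((2 : ℝ) ^ i * r) ^ (-(2 / 3) : ℝ) *
          ((2 : ℝ) ^ j * r) ^ (-(7 / 6) : ℝ)) with hV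
  have hcover : ∑ c ∈ D.edges.image (N931.PN.cell r), W c ≤
      ∑ j ∈ range (Nat.log 2 Q + 1), ∑ i ∈ range (j + 1), ((Img i j).card : ℝ) * V i j := by
    refine cover _ W _ Img V (fun i j => by rw [hV]; positivity) ?_
    intro c hc
    obtain ⟨e0, he0, rfl⟩ := Finset.mem_image.1 hc
    have hbox : inR D.l D.r 0 D.h (src e0) := by
      obtain ⟨x', y', b'⟩ := e0
      cases b'
      · rw [Dm.edges, mem_RE_false] at he0
        simp only [src, inR]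
        omega
      · rw [Dm.edges, mem_RE_true] at he0
        simp only [src, inR]
        omega
    have hd1 : r ≤ d1 D r (src e0) := le_max_left _ _
    have hd2 : r ≤ d2 D r (src e0) := le_max_left _ _
    have hd12 : d1 D r (src e0) ≤ d2 D r (src e0) :=
      max_le_max le_rfl (Int.toNat_le_toNat (bd_le_qd D (src e0)))
    obtain ⟨s1, s2⟩ := scale hr hd1
    obtain ⟨s3, s4⟩ := scale hr hd2
    set i0 := Nat.log 2 (d1 D r (src e0) / r) with hi0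
    set j0 := Nat.log 2 (d2 D r (src e0) / r) with hj0
    have hij : i0 ≤ j0 := Nat.log_mono_right (Nat.div_le_div_right hd12)
    have hj : j0 < Nat.log 2 Q + 1 := by
      refine Nat.lt_succ_of_le (Nat.log_mono_right ?_)
      rw [hQ]
      refine Nat.le_floor ?_
      have h1 : ((d2 D r (src e0) / r : ℕ) : ℝ) ≤ (d2 D r (src e0) : ℝ) / r := Nat.cast_div_le
      refine h1.trans ?_
      have h2 : (d2 D r (src e0) : ℝ) ≤ (S0 + 1) / δ := by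
        unfold d2
        rw [Nat.cast_max]
        refine max_le ?_ ?_
        · rw [le_div_iff₀ hδ]
          linarith
        · have h3 := qd_le hsh hbox
          have h4 : (0 : ℝ) ≤ (S0 + 1) / δ := by positivity
          have h5 : S0 / δ ≤ (S0 + 1) / δ := div_le_div_of_nonneg_right (by linarith) hδ.le
          have h6 : (((qd D (src e0)).toNat : ℤ) : ℝ) ≤ (S0 + 1) / δ := by
            rw [Int.toNat_eq_max, Int.cast_max, Int.cast_zero]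
            exact max_le (h3.trans h5) h4
          exact_mod_cast h6
      calc (d2 D r (src e0) : ℝ) / r ≤ (S0 + 1) / δ / r := div_le_div_of_nonneg_right h2 hr0.le
        _ = (S0 + 1) / (δ * r) := by rw [div_div]
    refine ⟨j0, hj, i0, hij, ?_, ?_⟩
    · refine Finset.mem_image_of_mem _ (Finset.mem_filter.2 ⟨he0, ?_, ?_⟩)
      · have h1 : (D.bd (src e0)).toNat ≤ d1 D r (src e0) := le_max_right _ _
        have h2 := Int.self_le_toNat (D.bd (src e0))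
        have h3 : ((D.bd (src e0)).toNat : ℤ) ≤ ((2 ^ (i0 + 1) * r : ℕ) : ℤ) := by
          exact_mod_cast h1.trans s2.le
        exact h2.trans h3
      · have h1 : (qd D (src e0)).toNat ≤ d2 D r (src e0) := le_max_right _ _
        have h2 := Int.self_le_toNat (qd D (src e0))
        have h3 : ((qd D (src e0)).toNat : ℤ) ≤ ((2 ^ (j0 + 1) * r : ℕ) : ℤ) := by
          exact_mod_cast h1.trans s4.le
        exact h2.trans h3
    · have hB : D.edges.filter (fun e => N931.PN.cell r e = N931.PN.cell r e0) ⊆ D.edges :=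
        Finset.filter_subset _ _
      have hBblk : D.edges.filter (fun e => N931.PN.cell r e = N931.PN.cell r e0) ⊆
          blk (src e0) r := fun e he => hcell r hr e0 e (Finset.mem_filter.1 he).2
      have g1 := hBW2 D.edges _ hB h (1 - ε) hx0 hx1.le
      have g2 := hBK δ (1 - ε) hδ hδ1' hx0 hx1 f hLp r hr hbig hxr (src e0) _ hbox hBblk
      refine g1.trans (g2.trans ?_)
      have p1 : (0 : ℝ) < 2 ^ i0 * r := by positivity
      have p2 : (0 : ℝ) < 2 ^ j0 * r := by positivity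
      have q1 : (2 : ℝ) ^ i0 * r ≤ d1 D r (src e0) := by exact_mod_cast s1
      have q2 : (2 : ℝ) ^ j0 * r ≤ d2 D r (src e0) := by exact_mod_cast s3
      have r1 : (d1 D r (src e0) : ℝ) ^ (-(1 / 2) : ℝ) ≤ ((2 : ℝ) ^ i0 * r) ^ (-(1 / 2) : ℝ) :=
        Real.rpow_le_rpow_of_nonpos p1 q1 (by norm_num)
      have r2 : (d1 D r (src e0) : ℝ) ^ (-(2 / 3) : ℝ) ≤ ((2 : ℝ) ^ i0 * r) ^ (-(2 / 3) : ℝ) :=
        Real.rpow_le_rpow_of_nonpos p1 q1 (by norm_num)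
      have r3 : (d2 D r (src e0) : ℝ) ^ (-(7 / 6) : ℝ) ≤ ((2 : ℝ) ^ j0 * r) ^ (-(7 / 6) : ℝ) :=
        Real.rpow_le_rpow_of_nonpos p2 q2 (by norm_num)
      have v1 : 0 ≤ (d2 D r (src e0) : ℝ) ^ (-(7 / 6) : ℝ) := by positivity
      rw [hV]
      simp only
      gcongr
  have hfin := hana δ L r (Nat.log 2 Q + 1) (fun i j => ((Img i j).card : ℝ)) hδ hr hL0 hN
    (fun i j hij => by
      have h1 : r ≤ 2 ^ (i + 1) * r := Nat.le_mul_of_pos_left _ (by positivity)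
      have h2 : 2 ^ (i + 1) * r ≤ 2 ^ (j + 1) * r :=
        Nat.mul_le_mul_right _ (Nat.pow_le_pow_right (by norm_num) (by omega))
      have h3 := hcnt D hOk r (2 ^ (i + 1) * r) (2 ^ (j + 1) * r) hr h1 h2
      refine h3.trans (le_of_eq ?_)
      push_cast
      field_simp)
  -- the logarithm
  have hLle : L ≤ 4 / 3 * Real.log Λ := by
    have h1 : 1 / (δ * r) ≤ Λ ^ (4 / 3 : ℝ) := by
      rw [div_le_iff₀ hq0]
      calc (1 : ℝ) = Λ ^ (4 / 3 : ℝ) * Λ ^ (-(4 / 3) : ℝ) := by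
            rw [← Real.rpow_add hΛ0]
            norm_num
        _ ≤ Λ ^ (4 / 3 : ℝ) * (δ * r) := mul_le_mul_of_nonneg_left hq_ge (by positivity)
    calc L ≤ Real.log (Λ ^ (4 / 3 : ℝ)) := Real.log_le_log (by positivity) h1
      _ = 4 / 3 * Real.log Λ := Real.log_rpow hΛ0 _
  have hL2 : (1 + L) ^ 2 ≤ 2 * (1 + Real.log Λ) ^ 2 := by
    have h1 : (1 + L) ^ 2 ≤ (1 + 4 / 3 * Real.log Λ) ^ 2 :=
      pow_le_pow_left₀ (by linarith) (by linarith) 2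
    nlinarith
  have hq12 : (δ * r) ^ (1 / 2 : ℝ) ≤ 2 * Λ ^ (-(2 / 3) : ℝ) :=
    (Real.rpow_le_rpow hq0.le hq_le (by norm_num)).trans hhalf
  calc WT D.edges h (1 - ε) ≤ ∑ c ∈ D.edges.image (N931.PN.cell r), W c :=
        WT_union D h hx0 r
    _ ≤ ∑ j ∈ range (Nat.log 2 Q + 1), ∑ i ∈ range (j + 1), ((Img i j).card : ℝ) * V i j :=
        hcover
    _ ≤ A * ((1 + L) ^ 2 * (δ * r) ^ (1 / 2 : ℝ)) := hfin
    _ ≤ A * ((2 * (1 + Real.log Λ) ^ 2) * (2 * Λ ^ (-(2 / 3) : ℝ))) := by gcongr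
    _ = A * 4 * (Λ ^ (-(2 / 3) : ℝ) * (1 + Real.log Λ) ^ 2) := by ring
    _ ≤ max 2 (A * 4) * (Λ ^ (-(2 / 3) : ℝ) * (1 + Real.log Λ) ^ 2) :=
        mul_le_mul_of_nonneg_right (le_max_right _ _) (by positivity)

end Pool.Agent.N952.PN.W23
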